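import Pool.Agent.N678.CL.Fin
import Pool.Agent.Helper526.Sch.Classes

set_option autoImplicit false
open scoped InnerProductSpace ENNReal Topology
open Filter
open Pool.Agent.Helper526.Sch Pool.Agent.N678.CL

namespace Pool.Agent.J4.H75.CK

universe u v

variable {H : Type u} [NormedAddCommGroup H] [InnerProductSpace ℂ H] [CompleteSpace H]

theorem tendsto_eval_atTop {J : Type*} [DecidableEq J] {κ : J → Type*} (j : J) :
    Tendsto (fun S : (∀ j, Finset (κ j)) => S j) atTop atTop := by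
  classical
  refine tendsto_atTop_atTop.2 fun F => ⟨Function.update (fun _ => ∅) j F, fun S hS => ?_⟩
  have := hS j
  simpa using this


/-- upper estimate, `1 < p ≤ 2`, truncated on the left -/
theorem upper {J L : Type*} [Fintype J] [Fintype L] [DecidableEq J] (T : L → J → ℝ) {N : ℝ}
    (hN : 0 ≤ N) (hT1 : ∀ l j, |T l j| ≤ 1)
    (hT : ∀ j k, ∑ l, T l j * T l k = if j = k then N else 0)
    (A : J → H →L[ℂ] H) (s : ∀ j, SV (A j)) (s' : ∀ l, SV (∑ j, (T l j : ℂ) • A j))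
    {p q : ℝ} (hp1 : 1 < p) (hp2 : p ≤ 2) (hpq : 1 / p + 1 / q = 1)
    (hs : ∀ j, Summable fun k => (s j).σ k ^ p) (S' : ∀ l, Finset (s' l).κ) :
    ∑ l, (∑ k ∈ S' l, (s' l).σ k ^ p) ^ (q / p) ≤ N * (∑ j, ∑' k, (s j).σ k ^ p) ^ (q / p) := by
  classical
  have hp0 : 0 < p := by linarith
  have hq' : 1 / q = 1 - 1 / p := by linarith
  have hp' : 1 / p < 1 := by rw [div_lt_one hp0]; exact hp1
  have hq0 : 0 < q := by
    have : 0 < 1 / q := by rw [hq']; linarith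
    exact one_div_pos.1 this
  have hpne : p ≠ 0 := hp0.ne'
  have hqne : q ≠ 0 := hq0.ne'
  have hpq1 : p + q = p * q := by field_simp at hpq; linarith
  set X : ℝ := ∑ j, ∑' k, (s j).σ k ^ p with hX
  have hX0 : 0 ≤ X := Finset.sum_nonneg fun j _ => tsum_nonneg fun k =>
    Real.rpow_nonneg ((s j).pos k).le _
  set Z : L → ℝ := fun l => ∑ k ∈ S' l, (s' l).σ k ^ p with hZ
  have hZ0 : ∀ l, 0 ≤ Z l := fun l => Finset.sum_nonneg fun k _ =>
    Real.rpow_nonneg ((s' l).pos k).le _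
  set R : L → ℝ := fun l => (Z l) ^ (1 / p) with hR
  have hZpos : ∀ l, ∀ k ∈ S' l, 0 < Z l := fun l k hk =>
    Finset.sum_pos (fun i _ => Real.rpow_pos_of_pos ((s' l).pos i) _) ⟨k, hk⟩
  set b : ∀ l, (s' l).κ → ℝ := fun l k => (R l) ^ (q - p) * (s' l).σ k ^ (p - 1) with hb
  have hbpos : ∀ l, ∀ k ∈ S' l, 0 < b l k := fun l k hk =>
    mul_pos (Real.rpow_pos_of_pos (Real.rpow_pos_of_pos (hZpos l k hk) _) _)
      (Real.rpow_pos_of_pos ((s' l).pos k) _)
  -- the sum of `b σ`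
  have hbs : ∀ l, ∑ k ∈ S' l, b l k * (s' l).σ k = (Z l) ^ (q / p) := by
    intro l
    rcases (S' l).eq_empty_or_nonempty with he | ⟨k0, hk0⟩
    · have : Z l = 0 := by rw [hZ]; simp [he]
      rw [this, he, Finset.sum_empty, Real.zero_rpow (by positivity)]
    · have hZl := hZpos l k0 hk0
      have e1 : ∀ k ∈ S' l, b l k * (s' l).σ k = (R l) ^ (q - p) * (s' l).σ k ^ p := by
        intro k _
        simp only [hb]
        rw [mul_assoc]
        congr 1
        rw [← Real.rpow_add_one ((s' l).pos k).ne']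
        congr 1; ring
      rw [Finset.sum_congr rfl e1, ← Finset.mul_sum]
      change R l ^ (q - p) * Z l = _
      simp only [hR]
      rw [← Real.rpow_mul hZl.le, ← Real.rpow_add_one hZl.ne']
      congr 1
      field_simp
      ring
  have hbq : ∀ l, (∑ k ∈ S' l, b l k ^ q) ^ (p / q) = (Z l) ^ (q / p) := by
    intro l
    rcases (S' l).eq_empty_or_nonempty with he | ⟨k0, hk0⟩
    · have : Z l = 0 := by rw [hZ]; simp [he]
      rw [this, he, Finset.sum_empty, Real.zero_rpow (by positivity),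
        Real.zero_rpow (by positivity)]
    · have hZl := hZpos l k0 hk0
      have hRl : 0 < R l := Real.rpow_pos_of_pos hZl _
      have e1 : ∀ k ∈ S' l, b l k ^ q = (R l) ^ ((q - p) * q) * (s' l).σ k ^ p := by
        intro k _
        simp only [hb]
        rw [Real.mul_rpow (Real.rpow_nonneg hRl.le _) (Real.rpow_nonneg ((s' l).pos k).le _),
          ← Real.rpow_mul hRl.le, ← Real.rpow_mul ((s' l).pos k).le]
        congr 2
        linarith
      rw [Finset.sum_congr rfl e1, ← Finset.mul_sum]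
      change (R l ^ ((q - p) * q) * Z l) ^ (p / q) = _
      simp only [hR]
      rw [← Real.rpow_mul hZl.le, ← Real.rpow_add_one hZl.ne', ← Real.rpow_mul hZl.le]
      congr 1
      field_simp
      nlinarith [hpq1]
  have hfb : ∀ S : (∀ j, Finset (s j).κ),
      ‖∑ l, ∑ k' ∈ S' l, ∑ j, ∑ k ∈ S j, (T l j : ℂ) * ((s j).σ k : ℂ) * (b l k' : ℂ) *
        (⟪(s' l).y k', (s j).y k⟫_ℂ * ⟪(s j).v k, (s' l).v k'⟫_ℂ)‖ ≤
      N ^ (1 / q) * (X * ∑ l, (Z l) ^ (q / p)) ^ (1 / p) := by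
    intro S
    have h := fin_bound T hN hT1 hT (fun j => (s j).v) (fun j => (s j).y) (fun l => (s' l).v)
      (fun l => (s' l).y) (fun j => (s j).ov) (fun j => (s j).oy) (fun l => (s' l).ov)
      (fun l => (s' l).oy) S S' (fun j k => (s j).σ k) (fun j k _ => (s j).pos k) b hbpos
      hp1 hp2 hpq
    refine h.trans ?_
    have e0 : 0 ≤ ∑ l, (Z l) ^ (q / p) := Finset.sum_nonneg fun l _ =>
      Real.rpow_nonneg (hZ0 l) _
    have e1 : ∑ l, (∑ k' ∈ S' l, b l k' ^ q) ^ (p / q) = ∑ l, (Z l) ^ (q / p) :=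
      Finset.sum_congr rfl fun l _ => hbq l
    rw [e1]
    refine mul_le_mul_of_nonneg_left ?_ (Real.rpow_nonneg hN _)
    refine Real.rpow_le_rpow (mul_nonneg (Finset.sum_nonneg fun j _ => Finset.sum_nonneg
      fun k _ => Real.rpow_nonneg ((s j).pos k).le _) e0) ?_ (by positivity)
    refine mul_le_mul_of_nonneg_right ?_ e0
    refine Finset.sum_le_sum fun j _ => ?_
    exact (hs j).sum_le_tsum _ fun k _ => Real.rpow_nonneg ((s j).pos k).le _
  have hlim : Tendsto (fun S : (∀ j, Finset (s j).κ) =>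
      ∑ l, ∑ k' ∈ S' l, ∑ j, ∑ k ∈ S j, (T l j : ℂ) * ((s j).σ k : ℂ) * (b l k' : ℂ) *
        (⟪(s' l).y k', (s j).y k⟫_ℂ * ⟪(s j).v k, (s' l).v k'⟫_ℂ)) atTop
      (𝓝 (∑ l, ∑ k' ∈ S' l, ∑ j, (T l j : ℂ) * (b l k' : ℂ) *
        ⟪(s' l).y k', A j ((s' l).v k')⟫_ℂ)) := by
    refine tendsto_finsetSum _ fun l _ => tendsto_finsetSum _ fun k' _ =>
      tendsto_finsetSum _ fun j _ => ?_
    have h1 := ((s j).hs ((s' l).v k') ((s' l).y k')).mul_left ((T l j : ℂ) * (b l k' : ℂ))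
    have h2 : Tendsto (fun F : Finset (s j).κ => ∑ k ∈ F, (T l j : ℂ) * (b l k' : ℂ) *
      (((s j).σ k : ℂ) * (⟪(s' l).y k', (s j).y k⟫_ℂ * ⟪(s j).v k, (s' l).v k'⟫_ℂ))) atTop
      (𝓝 ((T l j : ℂ) * (b l k' : ℂ) * ⟪(s' l).y k', A j ((s' l).v k')⟫_ℂ)) := h1
    refine (h2.comp (tendsto_eval_atTop j)).congr fun S => ?_
    simp only [Function.comp]
    refine Finset.sum_congr rfl fun k _ => ?_
    ring
  have hval : ∑ l, ∑ k' ∈ S' l, ∑ j, (T l j : ℂ) * (b l k' : ℂ) *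
        ⟪(s' l).y k', A j ((s' l).v k')⟫_ℂ = ((∑ l, (Z l) ^ (q / p) : ℝ) : ℂ) := by
    rw [Complex.ofReal_sum]
    refine Finset.sum_congr rfl fun l _ => ?_
    rw [← hbs l, Complex.ofReal_sum]
    refine Finset.sum_congr rfl fun k' _ => ?_
    have e1 : ∑ j, (T l j : ℂ) * (b l k' : ℂ) * ⟪(s' l).y k', A j ((s' l).v k')⟫_ℂ =
        (b l k' : ℂ) * ⟪(s' l).y k', (∑ j, (T l j : ℂ) • A j) ((s' l).v k')⟫_ℂ := by
      rw [ContinuousLinearMap.sum_apply, inner_sum, Finset.mul_sum]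
      refine Finset.sum_congr rfl fun j _ => ?_
      rw [ContinuousLinearMap.smul_apply, inner_smul_right]
      ring
    rw [e1, (s' l).ap k', inner_smul_right, inner_self_eq_norm_sq_to_K, (s' l).oy.1 k']
    push_cast
    ring
  rw [hval] at hlim
  have hmain := le_of_tendsto' hlim.norm hfb
  set Q : ℝ := ∑ l, (Z l) ^ (q / p) with hQ
  have hQ0 : 0 ≤ Q := Finset.sum_nonneg fun l _ => Real.rpow_nonneg (hZ0 l) _
  rw [Complex.norm_real, Real.norm_eq_abs, abs_of_nonneg hQ0] at hmain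
  rcases hQ0.eq_or_lt with h0 | h0
  · rw [← h0]
    exact mul_nonneg hN (Real.rpow_nonneg hX0 _)
  · rw [Real.mul_rpow hX0 hQ0, ← mul_assoc] at hmain
    have h1 : Q ^ (1 / q) ≤ N ^ (1 / q) * X ^ (1 / p) := by
      have e1 : Q = Q ^ (1 / q) * Q ^ (1 / p) := by
        rw [← Real.rpow_add h0, hq']; simp
      nth_rewrite 1 [e1] at hmain
      exact le_of_mul_le_mul_right hmain (Real.rpow_pos_of_pos h0 _)
    have h2 := Real.rpow_le_rpow (Real.rpow_nonneg hQ0 _) h1 hq0.le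
    rw [← Real.rpow_mul hQ0, Real.mul_rpow (Real.rpow_nonneg hN _) (Real.rpow_nonneg hX0 _),
      ← Real.rpow_mul hN, ← Real.rpow_mul hX0, one_div, inv_mul_cancel₀ hqne, Real.rpow_one,
      Real.rpow_one] at h2
    refine h2.trans (le_of_eq ?_)
    congr 2
    ring

/-- lower estimate, `p ≥ 2`, truncated on the left -/
theorem lower {J L : Type*} [Fintype J] [Fintype L] [DecidableEq J] (T : L → J → ℝ) {N : ℝ}
    (hN : 0 ≤ N) (hT1 : ∀ l j, |T l j| ≤ 1)
    (hT : ∀ j k, ∑ l, T l j * T l k = if j = k then N else 0)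
    (A : J → H →L[ℂ] H) (s : ∀ j, SV (A j)) (s' : ∀ l, SV (∑ j, (T l j : ℂ) • A j))
    {p q : ℝ} (hp2 : 2 ≤ p) (hpq : 1 / p + 1 / q = 1)
    (hs' : ∀ l, Summable fun k => (s' l).σ k ^ p) (S : ∀ j, Finset (s j).κ) :
    N * (∑ j, ∑ k ∈ S j, (s j).σ k ^ p) ^ (q / p) ≤ ∑ l, (∑' k, (s' l).σ k ^ p) ^ (q / p) := by
  classical
  have hp0 : 0 < p := by linarith
  have hq' : 1 / q = 1 - 1 / p := by linarith
  have hp' : 1 / p ≤ 1 / 2 := one_div_le_one_div_of_le (by norm_num) hp2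
  have hp'' : 0 < 1 / p := one_div_pos.2 hp0
  have hq0 : 0 < q := by
    have : 0 < 1 / q := by rw [hq']; linarith
    exact one_div_pos.1 this
  have hpne : p ≠ 0 := hp0.ne'
  have hqne : q ≠ 0 := hq0.ne'
  have hq1 : 1 < q := by
    have : 1 / q < 1 := by rw [hq']; linarith
    rwa [div_lt_one hq0] at this
  have hq2 : q ≤ 2 := by
    have : 1 / 2 ≤ 1 / q := by rw [hq']; linarith
    exact (one_div_le_one_div (by norm_num) hq0).1 this
  have hpq1 : p + q = p * q := by field_simp at hpq; linarith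
  set X : ℝ := ∑ j, ∑ k ∈ S j, (s j).σ k ^ p with hX
  have hX0 : 0 ≤ X := Finset.sum_nonneg fun j _ => Finset.sum_nonneg fun k _ =>
    Real.rpow_nonneg ((s j).pos k).le _
  set Y : ℝ := ∑ l, (∑' k, (s' l).σ k ^ p) ^ (q / p) with hY
  have hY0 : 0 ≤ Y := Finset.sum_nonneg fun l _ => Real.rpow_nonneg (tsum_nonneg fun k =>
    Real.rpow_nonneg ((s' l).pos k).le _) _
  have hfb : ∀ S' : (∀ l, Finset (s' l).κ),
      ‖∑ l, ∑ k' ∈ S' l, ∑ j, ∑ k ∈ S j, (T l j : ℂ) * (((s j).σ k ^ (p - 1) : ℝ) : ℂ) *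
        ((s' l).σ k' : ℂ) *
        (⟪(s' l).v k', (s j).v k⟫_ℂ * ⟪(s j).y k, (s' l).y k'⟫_ℂ)‖ ≤
      N ^ (1 / p) * (X * Y) ^ (1 / q) := by
    intro S'
    have h := fin_bound T hN hT1 hT (fun j => (s j).y) (fun j => (s j).v) (fun l => (s' l).y)
      (fun l => (s' l).v) (fun j => (s j).oy) (fun j => (s j).ov) (fun l => (s' l).oy)
      (fun l => (s' l).ov) S S' (fun j k => (s j).σ k ^ (p - 1))
      (fun j k _ => Real.rpow_pos_of_pos ((s j).pos k) _) (fun l k => (s' l).σ k)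
      (fun l k _ => (s' l).pos k) hq1 hq2 (by linarith : 1 / q + 1 / p = 1)
    refine h.trans ?_
    have e1 : ∑ j, ∑ k ∈ S j, ((s j).σ k ^ (p - 1)) ^ q = X := by
      refine Finset.sum_congr rfl fun j _ => Finset.sum_congr rfl fun k _ => ?_
      rw [← Real.rpow_mul ((s j).pos k).le]
      congr 1
      linarith
    rw [e1]
    refine mul_le_mul_of_nonneg_left ?_ (Real.rpow_nonneg hN _)
    refine Real.rpow_le_rpow (mul_nonneg hX0 (Finset.sum_nonneg fun l _ =>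
      Real.rpow_nonneg (Finset.sum_nonneg fun k _ => Real.rpow_nonneg ((s' l).pos k).le _) _)) ?_
      (by positivity)
    refine mul_le_mul_of_nonneg_left ?_ hX0
    refine Finset.sum_le_sum fun l _ => ?_
    refine Real.rpow_le_rpow (Finset.sum_nonneg fun k _ => Real.rpow_nonneg ((s' l).pos k).le _)
      ?_ (by positivity)
    exact (hs' l).sum_le_tsum _ fun k _ => Real.rpow_nonneg ((s' l).pos k).le _
  have hlim : Tendsto (fun S' : (∀ l, Finset (s' l).κ) =>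
      ∑ l, ∑ k' ∈ S' l, ∑ j, ∑ k ∈ S j, (T l j : ℂ) * (((s j).σ k ^ (p - 1) : ℝ) : ℂ) *
        ((s' l).σ k' : ℂ) *
        (⟪(s' l).v k', (s j).v k⟫_ℂ * ⟪(s j).y k, (s' l).y k'⟫_ℂ)) atTop
      (𝓝 (∑ l, ∑ j, ∑ k ∈ S j, (T l j : ℂ) * (((s j).σ k ^ (p - 1) : ℝ) : ℂ) *
        ⟪(s j).y k, (∑ i, (T l i : ℂ) • A i) ((s j).v k)⟫_ℂ)) := by
    refine tendsto_finsetSum _ fun l _ => ?_
    have h2 : Tendsto (fun F : Finset (s' l).κ => ∑ j, ∑ k ∈ S j, ∑ k' ∈ F,
        (T l j : ℂ) * (((s j).σ k ^ (p - 1) : ℝ) : ℂ) * (((s' l).σ k' : ℂ) *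
        (⟪(s j).y k, (s' l).y k'⟫_ℂ * ⟪(s' l).v k', (s j).v k⟫_ℂ))) atTop
      (𝓝 (∑ j, ∑ k ∈ S j, (T l j : ℂ) * (((s j).σ k ^ (p - 1) : ℝ) : ℂ) *
        ⟪(s j).y k, (∑ i, (T l i : ℂ) • A i) ((s j).v k)⟫_ℂ)) := by
      refine tendsto_finsetSum _ fun j _ => tendsto_finsetSum _ fun k _ => ?_
      exact ((s' l).hs ((s j).v k) ((s j).y k)).mul_left
        ((T l j : ℂ) * (((s j).σ k ^ (p - 1) : ℝ) : ℂ))
    classical
    refine (h2.comp (tendsto_eval_atTop l)).congr fun S' => ?_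
    simp only [Function.comp]
    rw [Finset.sum_comm (s := S' l)]
    refine Finset.sum_congr rfl fun j _ => ?_
    rw [Finset.sum_comm (s := S' l)]
    refine Finset.sum_congr rfl fun k _ => Finset.sum_congr rfl fun k' _ => ?_
    ring
  have hval : ∑ l, ∑ j, ∑ k ∈ S j, (T l j : ℂ) * (((s j).σ k ^ (p - 1) : ℝ) : ℂ) *
        ⟪(s j).y k, (∑ i, (T l i : ℂ) • A i) ((s j).v k)⟫_ℂ = ((N * X : ℝ) : ℂ) := by
    rw [Finset.sum_comm]
    have e1 : ∀ j, ∑ l, ∑ k ∈ S j, (T l j : ℂ) * (((s j).σ k ^ (p - 1) : ℝ) : ℂ) *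
        ⟪(s j).y k, (∑ i, (T l i : ℂ) • A i) ((s j).v k)⟫_ℂ =
        ((N * ∑ k ∈ S j, (s j).σ k ^ p : ℝ) : ℂ) := by
      intro j
      rw [Finset.sum_comm, Finset.mul_sum, Complex.ofReal_sum]
      refine Finset.sum_congr rfl fun k _ => ?_
      have e2 : ∀ l, (T l j : ℂ) * (((s j).σ k ^ (p - 1) : ℝ) : ℂ) *
          ⟪(s j).y k, (∑ i, (T l i : ℂ) • A i) ((s j).v k)⟫_ℂ =
          ∑ i, ((T l j * T l i : ℝ) : ℂ) * ((((s j).σ k ^ (p - 1) : ℝ) : ℂ) *
            ⟪(s j).y k, A i ((s j).v k)⟫_ℂ) := by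
        intro l
        rw [ContinuousLinearMap.sum_apply, inner_sum, Finset.mul_sum]
        refine Finset.sum_congr rfl fun i _ => ?_
        rw [ContinuousLinearMap.smul_apply, inner_smul_right]
        push_cast
        ring
      simp only [e2]
      rw [Finset.sum_comm]
      have e3 : ∀ i, ∑ l, ((T l j * T l i : ℝ) : ℂ) * ((((s j).σ k ^ (p - 1) : ℝ) : ℂ) *
            ⟪(s j).y k, A i ((s j).v k)⟫_ℂ) = if j = i then
            (N : ℂ) * ((((s j).σ k ^ (p - 1) : ℝ) : ℂ) * ⟪(s j).y k, A i ((s j).v k)⟫_ℂ)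
            else 0 := by
        intro i
        rw [← Finset.sum_mul, ← Complex.ofReal_sum, hT j i]
        split_ifs <;> simp
      simp only [e3]
      rw [Finset.sum_ite_eq]
      simp only [Finset.mem_univ, if_true]
      rw [(s j).ap k, inner_smul_right, inner_self_eq_norm_sq_to_K, (s j).oy.1 k]
      have e4 : (s j).σ k ^ p = (s j).σ k ^ (p - 1) * (s j).σ k := by
        rw [← Real.rpow_add_one ((s j).pos k).ne']
        congr 1; ring
      rw [e4]
      push_cast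
      ring
    simp only [e1]
    rw [← Complex.ofReal_sum, ← Finset.mul_sum]
  rw [hval] at hlim
  have hmain := le_of_tendsto' hlim.norm hfb
  have hNX : 0 ≤ N * X := mul_nonneg hN hX0
  rw [Complex.norm_real, Real.norm_eq_abs, abs_of_nonneg hNX] at hmain
  rcases hN.eq_or_lt with hN0 | hN0
  · rw [← hN0, zero_mul]; exact hY0
  rcases hX0.eq_or_lt with h0 | h0
  · rw [← h0, Real.zero_rpow (by positivity), mul_zero]
    exact hY0
  · rw [Real.mul_rpow hX0 hY0] at hmain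
    have h1 : N ^ (1 / q) * X ^ (1 / p) ≤ Y ^ (1 / q) := by
      have e1 : N * X = (N ^ (1 / p) * X ^ (1 / q)) * (N ^ (1 / q) * X ^ (1 / p)) := by
        have a1 : N = N ^ (1 / p) * N ^ (1 / q) := by
          rw [← Real.rpow_add hN0, hpq, Real.rpow_one]
        have a2 : X = X ^ (1 / q) * X ^ (1 / p) := by
          rw [← Real.rpow_add h0, hq']; simp
        nth_rewrite 1 [a1, a2]
        ring
      rw [e1, ← mul_assoc (N ^ (1 / p)) (X ^ (1 / q)) (Y ^ (1 / q))] at hmain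
      exact le_of_mul_le_mul_left hmain
        (mul_pos (Real.rpow_pos_of_pos hN0 _) (Real.rpow_pos_of_pos h0 _))
    have h2 := Real.rpow_le_rpow (mul_nonneg (Real.rpow_nonneg hN _) (Real.rpow_nonneg hX0 _))
      h1 hq0.le
    rw [← Real.rpow_mul hY0, Real.mul_rpow (Real.rpow_nonneg hN _) (Real.rpow_nonneg hX0 _),
      ← Real.rpow_mul hN, ← Real.rpow_mul hX0, one_div_mul_cancel hqne, Real.rpow_one,
      Real.rpow_one] at h2
    refine le_trans (le_of_eq ?_) h2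
    congr 2
    ring

end Pool.Agent.J4.H75.CK
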