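import Pool.Agent.J4.H75.CK.Gen

set_option autoImplicit false
open scoped InnerProductSpace ENNReal Topology
open Filter
open Pool.Agent.Helper526.Sch Pool.Agent.N678.CL

namespace Pool.Agent.J4.H75.CK

universe u v

variable {H : Type u} [NormedAddCommGroup H] [InnerProductSpace ℂ H] [CompleteSpace H]

/-- the coefficient matrix: the row of ones and all rows `e_j - e_k`, `j < k` -/
noncomputable def TT (n : ℕ) (l : Option {x : Fin n × Fin n // x.1 < x.2}) (j : Fin n) : ℝ :=
  match l with
  | none => 1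
  | some x => (if j = x.1.1 then 1 else 0) - (if j = x.1.2 then 1 else 0)

theorem TT_abs (n : ℕ) (l : Option {x : Fin n × Fin n // x.1 < x.2}) (j : Fin n) :
    |TT n l j| ≤ 1 := by
  match l with
  | none => simp [TT]
  | some x =>
    simp only [TT]
    split_ifs <;> simp

theorem TT_orth (n : ℕ) (j k : Fin n) :
    ∑ l, TT n l j * TT n l k = if j = k then (n : ℝ) else 0 := by
  rw [Fintype.sum_option]
  simp only [TT, one_mul]
  set f : Fin n × Fin n → ℝ := fun x =>
    ((if j = x.1 then 1 else 0) - (if j = x.2 then 1 else 0)) *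
      ((if k = x.1 then 1 else 0) - (if k = x.2 then 1 else 0)) with hf
  have h1 : ∑ x : {x : Fin n × Fin n // x.1 < x.2}, f x.1 =
      ∑ a : Fin n, ∑ b : Fin n, if a < b then f (a, b) else 0 := by
    rw [← Fintype.sum_prod_type' (f := fun a b => if a < b then f (a, b) else 0)]
    rw [← Finset.sum_filter]
    exact (Finset.sum_subtype (Finset.univ.filter fun x : Fin n × Fin n => x.1 < x.2)
      (by simp) f).symm
  have hsymm : ∀ a b, f (b, a) = f (a, b) := by
    intro a b
    simp only [hf]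
    ring
  have hdiag : ∀ a, f (a, a) = 0 := by
    intro a
    simp only [hf]
    ring
  have h2 : ∑ a : Fin n, ∑ b : Fin n, f (a, b) =
      2 * ∑ a : Fin n, ∑ b : Fin n, if a < b then f (a, b) else 0 := by
    have e1 : ∀ a b : Fin n, f (a, b) = (if a < b then f (a, b) else 0) +
        (if b < a then f (b, a) else 0) := by
      intro a b
      rcases lt_trichotomy a b with h | h | h
      · simp [h, h.not_gt]
      · subst h; simp [hdiag]
      · simp [h, h.not_gt, hsymm b a]
    have e2 : ∑ a : Fin n, ∑ b : Fin n, f (a, b) = ∑ a : Fin n, ∑ b : Fin n,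
        ((if a < b then f (a, b) else 0) + (if b < a then f (b, a) else 0)) :=
      Finset.sum_congr rfl fun a _ => Finset.sum_congr rfl fun b _ => e1 a b
    rw [e2]
    simp only [Finset.sum_add_distrib]
    rw [Finset.sum_comm (f := fun a b : Fin n => if b < a then f (b, a) else 0)]
    ring
  have h3 : ∑ a : Fin n, ∑ b : Fin n, f (a, b) = 2 * ((if j = k then (n : ℝ) else 0) - 1) := by
    have e1 : ∀ a b : Fin n, f (a, b) =
        (if j = a then 1 else 0) * (if k = a then 1 else 0) -
        (if j = a then 1 else 0) * (if k = b then 1 else 0) -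
        (if j = b then 1 else 0) * (if k = a then 1 else 0) +
        (if j = b then 1 else 0) * (if k = b then (1 : ℝ) else 0) := by
      intro a b
      simp only [hf]
      ring
    simp only [e1, Finset.sum_add_distrib, Finset.sum_sub_distrib, Finset.sum_const,
      Finset.card_univ, Fintype.card_fin, nsmul_eq_mul, ← Finset.mul_sum, Finset.sum_ite_eq,
      Finset.mem_univ, if_true, mul_one, one_mul, ← Finset.sum_mul]
    have e2 : ∑ x : Fin n, (if j = x then (1 : ℝ) else 0) * (if k = x then 1 else 0) =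
        if j = k then 1 else 0 := by
      rw [Finset.sum_eq_single j]
      · by_cases h : j = k
        · simp [h]
        · have h' : ¬ k = j := fun h' => h h'.symm
          simp [h, h']
      · intro b _ hb
        have h' : ¬ j = b := fun h' => hb h'.symm
        simp [h']
      · simp
    rw [e2]
    split_ifs <;> ring
  change 1 + ∑ x : {x : Fin n × Fin n // x.1 < x.2}, f x.1 = _
  rw [h1]
  linarith

theorem TT_none (n : ℕ) (A : Fin n → H →L[ℂ] H) :
    ∑ j, (TT n none j : ℂ) • A j = ∑ j, A j := by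
  simp [TT]

theorem TT_some (n : ℕ) (A : Fin n → H →L[ℂ] H) (x : {x : Fin n × Fin n // x.1 < x.2}) :
    ∑ j, (TT n (some x) j : ℂ) • A j = A x.1.1 - A x.1.2 := by
  simp only [TT]
  push_cast
  simp only [sub_smul, Finset.sum_sub_distrib, ite_smul, one_smul, zero_smul]
  simp

theorem SV_toReal {X : H →L[ℂ] H} (hX : IsCompactOperator X) {p : ℝ} (hp : 0 < p)
    {ι : Type v} (b : HilbertBasis ι ℂ H) (hf : trAbsPow b p X < ∞) :
    ∃ s : SV X, (Summable fun k => s.σ k ^ p) ∧
      (trAbsPow b p X).toReal = ∑' k, s.σ k ^ p := by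
  obtain ⟨s, hs⟩ := exists_SV.{u, v} hX
  have h1 := hs p hp b
  rw [h1] at hf
  have h2 : ∀ k, (ENNReal.ofReal (s.σ k ^ p)).toReal = s.σ k ^ p := fun k =>
    ENNReal.toReal_ofReal (Real.rpow_nonneg (s.pos k).le _)
  refine ⟨s, ?_, ?_⟩
  · have h3 := ENNReal.summable_toReal hf.ne
    simpa only [h2] using h3
  · rw [h1, ENNReal.tsum_toReal_eq fun k => ENNReal.ofReal_ne_top]
    exact tsum_congr h2

theorem norm_rpow {ι : Type v} (b : HilbertBasis ι ℂ H) (p r : ℝ) (X : H →L[ℂ] H) :
    schattenNorm b p X ^ r = (trAbsPow b p X).toReal ^ (r / p) := by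
  unfold schattenNorm
  rw [← Real.rpow_mul ENNReal.toReal_nonneg]
  congr 1
  ring

theorem schatten_sum_mem {ι : Type v} (b : HilbertBasis ι ℂ H) {p : ℝ} (hp : 0 < p)
    {J : Type*} (S : Finset J) (A : J → H →L[ℂ] H) (hA : ∀ j, IsSchatten b p (A j)) :
    IsSchatten b p (∑ j ∈ S, A j) := by
  classical
  induction S using Finset.induction_on with
  | empty => simpa using schatten_zero_mem b hp
  | insert a S ha ih => rw [Finset.sum_insert ha]; exact schatten_add_mem b hp (hA a) ih

section

variable {J L : Type*} [Fintype J] [Fintype L] [DecidableEq J] (T : L → J → ℝ) {N : ℝ}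
    (hN : 0 ≤ N) (hT1 : ∀ l j, |T l j| ≤ 1)
    (hT : ∀ j k, ∑ l, T l j * T l k = if j = k then N else 0)
    {ι : Type v} (b : HilbertBasis ι ℂ H)

include hN hT1 hT

theorem upper_full {p q : ℝ} (hp1 : 1 < p) (hp2 : p ≤ 2) (hpq : 1 / p + 1 / q = 1)
    (A : J → H →L[ℂ] H) (hA : ∀ j, IsSchatten b p (A j)) :
    ∑ l, schattenNorm b p (∑ j, (T l j : ℂ) • A j) ^ q ≤
      N * (∑ j, schattenNorm b p (A j) ^ p) ^ (q / p) := by
  have hp0 : 0 < p := by linarith
  have hB : ∀ l, IsSchatten b p (∑ j, (T l j : ℂ) • A j) := fun l =>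
    schatten_sum_mem b hp0 _ _ fun j => schatten_smul_mem b hp0 _ (hA j)
  choose s hs hs1 using fun j => SV_toReal (hA j).1 hp0 b (hA j).2
  choose s' hs' hs1' using fun l => SV_toReal (hB l).1 hp0 b (hB l).2
  have hqp : 0 < q / p := by
    have h1 : 0 < 1 / q := by
      have : 1 / p < 1 := by rw [div_lt_one hp0]; exact hp1
      linarith
    have := one_div_pos.1 h1
    positivity
  have h1 := upper T hN hT1 hT A s s' hp1 hp2 hpq hs
  have hlim : Tendsto (fun S' : (∀ l, Finset (s' l).κ) =>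
      ∑ l, (∑ k ∈ S' l, (s' l).σ k ^ p) ^ (q / p)) atTop
      (𝓝 (∑ l, (∑' k, (s' l).σ k ^ p) ^ (q / p))) := by
    classical
    refine tendsto_finsetSum _ fun l _ => ?_
    have h2 : Tendsto (fun F : Finset (s' l).κ => (∑ k ∈ F, (s' l).σ k ^ p) ^ (q / p)) atTop
        (𝓝 ((∑' k, (s' l).σ k ^ p) ^ (q / p))) :=
      Tendsto.rpow_const (hs' l).hasSum (Or.inr hqp.le)
    exact h2.comp (tendsto_eval_atTop l)
  classical
  have h2 := le_of_tendsto' hlim h1
  simp only [norm_rpow, div_self hp0.ne', Real.rpow_one, hs1, hs1']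
  exact h2

theorem lower_full {p q : ℝ} (hp2 : 2 ≤ p) (hpq : 1 / p + 1 / q = 1)
    (A : J → H →L[ℂ] H) (hA : ∀ j, IsSchatten b p (A j)) :
    N * (∑ j, schattenNorm b p (A j) ^ p) ^ (q / p) ≤
      ∑ l, schattenNorm b p (∑ j, (T l j : ℂ) • A j) ^ q := by
  have hp0 : 0 < p := by linarith
  have hB : ∀ l, IsSchatten b p (∑ j, (T l j : ℂ) • A j) := fun l =>
    schatten_sum_mem b hp0 _ _ fun j => schatten_smul_mem b hp0 _ (hA j)
  choose s hs hs1 using fun j => SV_toReal (hA j).1 hp0 b (hA j).2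
  choose s' hs' hs1' using fun l => SV_toReal (hB l).1 hp0 b (hB l).2
  have hqp : 0 < q / p := by
    have h1 : 0 < 1 / q := by
      have : 1 / p < 1 := by rw [div_lt_one hp0]; linarith
      linarith
    have := one_div_pos.1 h1
    positivity
  have h1 := lower T hN hT1 hT A s s' hp2 hpq hs'
  have hlim : Tendsto (fun S : (∀ j, Finset (s j).κ) =>
      N * (∑ j, ∑ k ∈ S j, (s j).σ k ^ p) ^ (q / p)) atTop
      (𝓝 (N * (∑ j, ∑' k, (s j).σ k ^ p) ^ (q / p))) := by
    classical
    refine Tendsto.const_mul _ (Tendsto.rpow_const ?_ (Or.inr hqp.le))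
    refine tendsto_finsetSum _ fun j _ => ?_
    have h2 : Tendsto (fun F : Finset (s j).κ => ∑ k ∈ F, (s j).σ k ^ p) atTop
        (𝓝 (∑' k, (s j).σ k ^ p)) := (hs j).hasSum
    exact h2.comp (tendsto_eval_atTop j)
  classical
  have h2 := le_of_tendsto' hlim h1
  simp only [norm_rpow, div_self hp0.ne', Real.rpow_one, hs1, hs1']
  exact h2

end

theorem sum_TT {ι : Type v} (b : HilbertBasis ι ℂ H) (n : ℕ) (p q : ℝ) (A : Fin n → H →L[ℂ] H) :
    ∑ l, schattenNorm b p (∑ j, (TT n l j : ℂ) • A j) ^ q =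
      schattenNorm b p (∑ j, A j) ^ q +
        ∑ x ∈ Finset.univ.filter (fun x : Fin n × Fin n => x.1 < x.2),
          schattenNorm b p (A x.1 - A x.2) ^ q := by
  rw [Fintype.sum_option, TT_none]
  congr 1
  rw [Finset.sum_subtype (Finset.univ.filter fun x : Fin n × Fin n => x.1 < x.2)
    (p := fun x => x.1 < x.2) (by simp)]
  exact Finset.sum_congr rfl fun x _ => by rw [TT_some]

end Pool.Agent.J4.H75.CK
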