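import Pool.Agent.J4.H75.CK.Main
import Pool.Agent.Helper526.Sch.Units

set_option autoImplicit false
open scoped InnerProductSpace ENNReal Topology
open Filter
open Pool.Agent.Helper526.Sch Pool.Agent.N678.CL

namespace Pool.Agent.J4.H75.CK

universe u v

variable {H : Type u} [NormedAddCommGroup H] [InnerProductSpace ℂ H] [CompleteSpace H]

theorem norm_smul_unit {ι : Type v} (b : HilbertBasis ι ℂ H) (i : ι) {p : ℝ} (hp : 0 < p)
    (c : ℝ) (hc : 0 ≤ c) : schattenNorm b p ((c : ℂ) • matUnit b i i) = c := by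
  unfold schattenNorm
  rw [trAbsPow_smul b (Cpt.of_compact (matUnit_compact b i i)).1 hp, trAbsPow_matUnit b i i hp,
    mul_one, ENNReal.toReal_ofReal (Real.rpow_nonneg (norm_nonneg _) _),
    ← Real.rpow_mul (norm_nonneg _), mul_one_div_cancel hp.ne', Real.rpow_one]
  simp [abs_of_nonneg hc]

theorem norm_neg {ι : Type v} (b : HilbertBasis ι ℂ H) {p : ℝ} (X : H →L[ℂ] H) :
    schattenNorm b p (-X) = schattenNorm b p X := by
  unfold schattenNorm trAbsPow absPow
  simp

/-- for `0 < p < 1` the upper inequality fails for every `n ≥ 2` -/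
theorem neg_part {ι : Type v} (b : HilbertBasis ι ℂ H) [Nontrivial H] (n : ℕ) (hn : 2 ≤ n)
    {p q : ℝ} (hp0 : 0 < p) (hp1 : p < 1) (hpq : 1 / p + 1 / q = 1) :
    ∃ A : Fin n → H →L[ℂ] H, (∀ j, IsSchatten b p (A j)) ∧
      (∀ j, 0 < schattenNorm b p (A j)) ∧ 0 < schattenNorm b p (∑ j, A j) ∧
      (∀ j k, j < k → 0 < schattenNorm b p (A j - A k)) ∧
      n * (∑ j, schattenNorm b p (A j) ^ p) ^ (q / p) <
        schattenNorm b p (∑ j, A j) ^ q +
          ∑ x ∈ Finset.univ.filter (fun x : Fin n × Fin n => x.1 < x.2),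
            schattenNorm b p (A x.1 - A x.2) ^ q := by
  have hi : Nonempty ι := by
    by_contra hne
    rw [not_nonempty_iff] at hne
    obtain ⟨x, hx⟩ := exists_ne (0 : H)
    have h := hasSum_sq b x
    have h2 := h.unique (hasSum_empty)
    exact hx (by simpa using h2)
  obtain ⟨i⟩ := hi
  have hq : q < 0 := by
    have h1 : 1 < 1 / p := by rw [lt_div_iff₀ hp0]; linarith
    have h2 : 1 / q < 0 := by linarith
    exact one_div_neg.1 h2
  have hn0 : (0 : ℝ) < n := by
    have : 0 < n := by omega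
    exact_mod_cast this
  set ε : ℝ := ((n : ℝ) + 1) ^ (1 / q) with hε
  have hε0 : 0 < ε := Real.rpow_pos_of_pos (by linarith) _
  have hεq : ε ^ q = n + 1 := by
    rw [hε, ← Real.rpow_mul (by linarith), one_div_mul_cancel hq.ne, Real.rpow_one]
  have hnormA : ∀ j : Fin n, schattenNorm b p (((1 + (j : ℝ) * ε : ℝ) : ℂ) • matUnit b i i) =
      1 + (j : ℝ) * ε := fun j => norm_smul_unit b i hp0 _ (by positivity)
  have hdiff : ∀ j k : Fin n, j < k →
      schattenNorm b p ((((1 + (j : ℝ) * ε : ℝ) : ℂ) • matUnit b i i) -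
        (((1 + (k : ℝ) * ε : ℝ) : ℂ) • matUnit b i i)) = ((k : ℝ) - (j : ℝ)) * ε := by
    intro j k hjk
    have hjk' : (j : ℝ) < (k : ℝ) := by exact_mod_cast hjk
    rw [← norm_neg, neg_sub, ← sub_smul, ← Complex.ofReal_sub, norm_smul_unit b i hp0 _
      (by nlinarith)]
    ring
  have hsum : schattenNorm b p (∑ j : Fin n, ((1 + (j : ℝ) * ε : ℝ) : ℂ) • matUnit b i i) =
      ∑ j : Fin n, (1 + (j : ℝ) * ε) := by
    rw [← Finset.sum_smul, ← Complex.ofReal_sum, norm_smul_unit b i hp0 _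
      (Finset.sum_nonneg fun j _ => by positivity)]
  refine ⟨fun j => ((1 + (j : ℝ) * ε : ℝ) : ℂ) • matUnit b i i, fun j => ?_, fun j => ?_, ?_,
    fun j k hjk => ?_, ?_⟩
  · exact schatten_smul_mem b hp0 _ ⟨matUnit_compact b i i, by
      rw [trAbsPow_matUnit b i i hp0]; simp⟩
  · rw [hnormA]; positivity
  · rw [hsum]
    exact Finset.sum_pos (fun j _ => by positivity) ⟨⟨0, by omega⟩, Finset.mem_univ _⟩
  · rw [hdiff j k hjk]
    have hjk' : (j : ℝ) < (k : ℝ) := by exact_mod_cast hjk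
    exact mul_pos (by linarith) hε0
  · have hL : (n : ℝ) * (∑ j : Fin n, schattenNorm b p (((1 + (j : ℝ) * ε : ℝ) : ℂ) •
        matUnit b i i) ^ p) ^ (q / p) ≤ n := by
      have h1 : (1 : ℝ) ≤ ∑ j : Fin n, schattenNorm b p (((1 + (j : ℝ) * ε : ℝ) : ℂ) •
          matUnit b i i) ^ p := by
        have h0 : (1 : ℝ) ≤ schattenNorm b p
          (((1 + (((⟨0, by omega⟩ : Fin n) : ℕ) : ℝ) * ε : ℝ) : ℂ) • matUnit b i i) ^ p := by
          rw [hnormA]; simp
        refine h0.trans (Finset.single_le_sum (f := fun j : Fin n => schattenNorm b p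
          (((1 + (j : ℝ) * ε : ℝ) : ℂ) • matUnit b i i) ^ p) (fun j _ => ?_)
          (Finset.mem_univ _))
        rw [hnormA]
        exact Real.rpow_nonneg (by positivity) _
      have h2 := Real.rpow_le_one_of_one_le_of_nonpos h1
        (div_nonpos_of_nonpos_of_nonneg hq.le hp0.le)
      calc _ ≤ (n : ℝ) * 1 := mul_le_mul_of_nonneg_left h2 hn0.le
        _ = n := mul_one _
    refine lt_of_le_of_lt hL ?_
    have h3 : (n : ℝ) + 1 ≤ ∑ x ∈ Finset.univ.filter (fun x : Fin n × Fin n => x.1 < x.2),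
            schattenNorm b p ((((1 + (x.1 : ℝ) * ε : ℝ) : ℂ) • matUnit b i i) -
        (((1 + (x.2 : ℝ) * ε : ℝ) : ℂ) • matUnit b i i)) ^ q := by
      have h4 : schattenNorm b p ((((1 + (((⟨0, by omega⟩ : Fin n) : ℕ) : ℝ) * ε : ℝ) : ℂ) •
          matUnit b i i) - (((1 + (((⟨1, by omega⟩ : Fin n) : ℕ) : ℝ) * ε : ℝ) : ℂ) •
          matUnit b i i)) ^ q = (n : ℝ) + 1 := by
        rw [hdiff ⟨0, by omega⟩ ⟨1, by omega⟩ (Fin.mk_lt_mk.2 zero_lt_one)]
        simp [hεq]
      rw [← h4]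
      refine Finset.single_le_sum (f := fun x : Fin n × Fin n => schattenNorm b p
          ((((1 + (x.1 : ℝ) * ε : ℝ) : ℂ) • matUnit b i i) -
          (((1 + (x.2 : ℝ) * ε : ℝ) : ℂ) • matUnit b i i)) ^ q) (fun x _ => ?_)
          (a := (⟨0, by omega⟩, ⟨1, by omega⟩)) ?_
      · unfold schattenNorm
        exact Real.rpow_nonneg (Real.rpow_nonneg ENNReal.toReal_nonneg _) _
      · rw [Finset.mem_filter]
        exact ⟨Finset.mem_univ _, Fin.mk_lt_mk.2 zero_lt_one⟩
    have h5 : 0 ≤ schattenNorm b p (∑ j : Fin n, ((1 + (j : ℝ) * ε : ℝ) : ℂ) •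
        matUnit b i i) ^ q := by
      unfold schattenNorm
      exact Real.rpow_nonneg (Real.rpow_nonneg ENNReal.toReal_nonneg _) _
    have h6 : (n : ℝ) < n + 1 := by linarith
    calc (n : ℝ) < n + 1 := h6
      _ ≤ _ := h3
      _ ≤ _ := le_add_of_nonneg_left h5

end Pool.Agent.J4.H75.CK
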